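import Pool.Agent.TH652.COL.NF

/-!
# The order of vanishing of `L(H^i(X), s)` from the numbers of points: all varieties, all number fields

`X` is a projective variety of dimension `d` over a number field `K`, given by homogeneous polynomials
over `𝓞 K`, and `B_v` are the Euler factors of `L(H^i(X), s)`: for almost all primes `v` the polynomial
`∏ (1 - α_j z)` of the eigenvalues of Frobenius on `H^i`, which are determined by the numbers of
points of `X` over the finite extensions of the residue field, and arbitrary real polynomials with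
constant term `1` at the other primes. `F` is a continuation of the `L`-function to a neighbourhood of
the half-line `[s₀, ∞)`, as a meromorphic function. For the conjecture of Beilinson one takes
`d = i = 2j + 1` and `s₀ = j + 1`, the centre. For real `γ` and `T > 0` let

`S_γ(T) = ∑_v ∑_{k ≥ 1} - p_k(v) / (k q_v^{k s₀}) · exp (i γ k log q_v / T) / Γ(1 + k log q_v / T)`,

where `p_k(v) = ∑_j α_j ^ k` is the power sum of the inverse roots of `B_v`. The sum converges
absolutely, and for every `γ > π/2`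

`S_γ(T) = m (log T - Λ_γ) - log |l| + π i z + O(1/T)`,

where `m` is the order of `F` at `s₀`, `l` is the leading coefficient (a real number) and `z` is the
number of the zeros minus the number of the poles of `F` on `(s₀, ∞)`. In particular the order of
vanishing is the limit of `Re S_γ(T) / log T`. No hypothesis on the zeros is made, and nothing is
assumed about `F` away from the half-line: no functional equation and no continuation to the plane.

The same holds for the finite sums over the prime powers with `log q_v^k ≤ e^{AT}`, for every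
`A > 1 + β - s₀`, `A > 0`, if the inverse roots of all `B_v` have absolute values `≤ q_v^β`. For the
centre and `β = i/2` (purity at the bad primes) these are all `A > 1/2`.
-/

set_option autoImplicit false

open Filter Topology NumberField IsDedekindDomain Polynomial

namespace Pool.Agent.Results.MP_6dc9d1_nt.CentralOrderLaw

open Pool.Agent.TH652.COL (IsEulerSystem IsFrobenius cone)

/-- `p_k(B) = ∑ ρ^{-k}`, the sum over the complex roots `ρ` of `B`, with multiplicities; this is
`∑ α_j^k` if `B = ∏ (1 - α_j z)`. It is a real number. -/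
noncomputable def powerSum (B : ℝ[X]) (k : ℕ) : ℝ :=
  (((B.map (algebraMap ℝ ℂ)).roots.map fun ρ => (ρ⁻¹) ^ k).sum).re

variable {K : Type} [Field K] [NumberField K]

/-- The term of `S_γ(T)` for the prime `v = x.1` and the exponent `k = x.2 + 1`. -/
noncomputable def term (B : HeightOneSpectrum (𝓞 K) → ℝ[X]) (s₀ γ T : ℝ)
    (x : HeightOneSpectrum (𝓞 K) × ℕ) : ℂ :=
  ((-(powerSum (B x.1) (x.2 + 1) * (Ideal.absNorm x.1.asIdeal : ℝ) ^ (-((x.2 + 1) * s₀)) /
    ((x.2 + 1) *
      Real.Gamma (1 + (x.2 + 1) * Real.log (Ideal.absNorm x.1.asIdeal : ℝ) / T))) : ℝ) : ℂ) *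
    Complex.exp ((γ * ((x.2 + 1) * Real.log (Ideal.absNorm x.1.asIdeal : ℝ) / T) : ℝ) * Complex.I)

variable (K) in
/-- The prime powers `v ^ k`, `k = x.2 + 1`, with `log (q_v ^ k) ≤ e^{A T}`. -/
def cutoff (A T : ℝ) : Set (HeightOneSpectrum (𝓞 K) × ℕ) :=
  {x | (x.2 + 1) * Real.log (Ideal.absNorm x.1.asIdeal : ℝ) ≤ Real.exp (A * T)}

/-- `Λ_γ = ∫_0^∞ (e^{-t} - e^{iγt} / Γ(1 + t)) dt / t`. -/
noncomputable def Lam (γ : ℝ) : ℂ := ∫ t in Set.Ioi (0 : ℝ),
  (Complex.exp (-(t : ℂ)) - Complex.exp ((γ * t : ℝ) * Complex.I) *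
    ((Real.Gamma (1 + t))⁻¹ : ℝ)) / t

/-- The number of the zeros minus the number of the poles of `F` on `(s₀, ∞)`, with
multiplicities. -/
noncomputable def excess (F : ℂ → ℂ) (s₀ : ℝ) : ℤ :=
  ∑ᶠ σ ∈ Set.Ioi s₀, (meromorphicOrderAt F (σ : ℂ)).untop₀

/-- `S(T) = m (log T - Λ_γ) - log |l| + π i z + O(1/T)`, and `m = lim Re S(T) / log T`. -/
def Law (S : ℝ → ℂ) (γ : ℝ) (m : ℤ) (l : ℝ) (z : ℤ) : Prop :=
  (fun T : ℝ => S T - (m * (Real.log T - Lam γ) - Real.log |l| + Real.pi * z * Complex.I)) =O[atTop]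
    (fun T : ℝ => 1 / T) ∧
  Tendsto (fun T : ℝ => (S T).re / Real.log T) atTop (𝓝 (m : ℝ))

theorem law_of {S : ℝ → ℂ} {γ : ℝ} {m : ℤ} {l : ℝ} {z : ℤ}
    (h : (fun T : ℝ => S T - (m * (Real.log T - Lam γ) - Real.log |l| +
      Real.pi * z * Complex.I)) =O[atTop] (fun T : ℝ => 1 / T)) : Law S γ m l z := by
  refine ⟨h, TH652.COL.order_limit (c := -(m * Lam γ) - Real.log |l| + Real.pi * z * Complex.I) ?_⟩
  refine h.congr_left fun T => ?_
  ring

/-- **The order of vanishing and the leading coefficient of the `L`-function of `H^i(X)` from the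
numbers of points.** -/
theorem result (K : Type) [Field K] [NumberField K] {n : ℕ} (X : Set (MvPolynomial (Fin n) (𝓞 K)))
    (d i N : ℕ) (B : HeightOneSpectrum (𝓞 K) → ℝ[X]) (hB : IsEulerSystem X d i N B)
    (F : ℂ → ℂ) (s₀ σ₁ : ℝ) (hmer : ∀ x : ℝ, s₀ ≤ x → MeromorphicAt F (x : ℂ))
    (hF : ∀ s : ℂ, σ₁ < s.re → F s = ∏' v : HeightOneSpectrum (𝓞 K),
      (((B v).map (algebraMap ℝ ℂ)).eval ((Ideal.absNorm v.asIdeal : ℂ) ^ (-s)))⁻¹) :
    {σ : ℝ | s₀ ≤ σ ∧ meromorphicOrderAt F (σ : ℂ) ≠ 0}.Finite ∧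
    (∀ γ T : ℝ, 0 < T → Summable fun x => ‖term B s₀ γ T x‖) ∧
    ∃ (m : ℤ) (l : ℝ), l ≠ 0 ∧ meromorphicOrderAt F (s₀ : ℂ) = m ∧
      meromorphicTrailingCoeffAt F (s₀ : ℂ) = l ∧
      ∀ γ : ℝ, Real.pi / 2 < γ →
        Law (fun T => ∑' x, term B s₀ γ T x) γ m l (excess F s₀) ∧
        ∀ β A : ℝ, (∀ v, ∀ ρ : ℂ, ((B v).map (algebraMap ℝ ℂ)).IsRoot ρ →
            (Ideal.absNorm v.asIdeal : ℝ) ^ (-β) ≤ ‖ρ‖) → 0 < A → 1 + β - s₀ < A →
          (∀ T : ℝ, (cutoff K A T).Finite) ∧
          Law (fun T => ∑ᶠ x ∈ cutoff K A T, term B s₀ γ T x) γ m l (excess F s₀) := by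
  obtain ⟨N', ⟨β₀, E⟩, hE⟩ := hB.ldata
  have hF' : ∀ s : ℂ, σ₁ < s.re → F s = TH652.COL.LF TH652.COL.nv B s := by
    intro s hs
    rw [hF s hs]
    unfold TH652.COL.LF TH652.COL.nv
    refine tprod_congr fun v => ?_
    rw [Complex.ofReal_natCast]
  obtain ⟨hfin, m, l, hm, hl, hl0, -⟩ := E.law hmer hF'
    (show Real.pi / 2 < Real.pi by linarith [Real.pi_pos])
  refine ⟨hfin, fun γ T hT => E.lsummable s₀ γ hT, m, l, hl0, hm, hl, fun γ hγ => ?_⟩
  have key : (fun T : ℝ => (∑' x, term B s₀ γ T x) - (m * (Real.log T - Lam γ) - Real.log |l| +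
      Real.pi * excess F s₀ * Complex.I)) =O[atTop] (fun T : ℝ => 1 / T) := by
    obtain ⟨-, m', l', hm', hl', -, h⟩ := E.law hmer hF' hγ
    have e1 : m' = m := by
      rw [hm] at hm'
      exact_mod_cast hm'.symm
    have e2 : l' = l := by
      rw [hl] at hl'
      exact_mod_cast hl'.symm
    subst e1 e2
    exact h
  refine ⟨law_of key, fun β A hβ hA hA1 => ?_⟩
  refine ⟨fun T => TH652.COL.cut_finite TH652.COL.two_le_nv TH652.COL.nv_finite A T, law_of ?_⟩
  have h1 := (hE β hβ).cut_isBigO TH652.COL.nv_finite s₀ γ hA (by linarith)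
  refine (key.sub h1).congr_left fun T => ?_
  show (∑' x, term B s₀ γ T x) - (m * (Real.log T - Lam γ) - Real.log |l| +
      Real.pi * excess F s₀ * Complex.I) -
    ((∑' x, term B s₀ γ T x) - ∑ᶠ x ∈ cutoff K A T, term B s₀ γ T x) = _
  ring

end Pool.Agent.Results.MP_6dc9d1_nt.CentralOrderLaw
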