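import Pool.Agent.TH270.SH.NFS
import Pool.Agent.TH652.COL.NF

/-!
# Order of vanishing at the centre and zero-free sectors from the numbers of points: all varieties

`X` is a projective variety of dimension `d` over a number field `K`, given by homogeneous polynomials
over `𝓞 K`, `B_v` are the Euler factors of `L(H^i(X), s)`: for almost all primes `v` the polynomial
`∏ (1 - α_j z)` of the eigenvalues of Frobenius on `H^i`, which are determined by the numbers of points
of `X` over the finite extensions of the residue field, and at the other primes arbitrary real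
polynomials with constant term `1` whose roots have absolute values `≥ q_v^{-i/2}`. Let `c = (i+1)/2` be
the centre (for `i = 2 m - 1` the point `s = m` of the conjecture of Beilinson), and for `ρ' > ρ > 1`

`Π_ρ(X) = ∏_{q_v ≤ exp ((log X)^ρ')} B_v(q_v^{-c}) ^ w_ρ(log q_v / log X)`,

`w_ρ(u) = (2π)⁻¹ ∫ Re (exp (z - u z^(1/ρ)) / z) dt`, `z = 1 + i t`. It is shown that:

* if `Π_ρ(X) ≍ (log X)^m`, `m` real, then `L(H^i(X), s)` extends to a holomorphic function without zeros
  in the sector `|arg (s - c)| < π / (2ρ)`, of order of magnitude `x^m` at `s = c + x`, `x → 0+`;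
* if this holds for all `ρ > 1`, then the same is true with the half plane `Re s > c`;
* if `F` is a continuation which is holomorphic for `Re s > c` and at `s = c`, then for every natural
  number `r` (e.g. the rank of the Chow group) the following are equivalent: `F` has order `r` at `c` and
  no zeros in the sector; `Π_ρ(X) ≍ (log X)^r`; `log Π_ρ(X) / log log X → r`;
* and `Π_ρ(X) ≍ (log X)^r` for all `ρ > 1` if and only if `F` has order `r` at `c` and no zeros with
  `Re s > c`.
-/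

set_option autoImplicit false

open Filter Topology NumberField IsDedekindDomain Polynomial

namespace Pool.Agent.Results.MP_6dc9d1_nt.CentralSectorLaw

open Pool.Agent.TH652.COL (IsEulerSystem IsFrobenius cone)

section definitions

variable {K : Type} [Field K] [NumberField K]

/-- The norm `q_v` of a prime. -/
noncomputable def q (v : HeightOneSpectrum (𝓞 K)) : ℕ := Ideal.absNorm v.asIdeal

/-- All complex roots of all `B_v` have absolute value at least `q_v^{-i/2}`. For almost all `v` this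
follows from `IsEulerSystem`; it is the purity of the Euler factors at the other primes. -/
def IsPure (B : HeightOneSpectrum (𝓞 K) → ℝ[X]) (i : ℕ) : Prop :=
  ∀ v, ∀ ρ : ℂ, ((B v).map (algebraMap ℝ ℂ)).IsRoot ρ → (q v : ℝ) ^ (-((i : ℝ) / 2)) ≤ ‖ρ‖

/-- The `L`-function, the product of the `B_v(q_v^{-s})⁻¹`; it is used for `Re s > i/2 + 1`, where the
product converges absolutely. -/
noncomputable def L (B : HeightOneSpectrum (𝓞 K) → ℝ[X]) (s : ℂ) : ℂ :=
  ∏' v : HeightOneSpectrum (𝓞 K), (((B v).map (algebraMap ℝ ℂ)).eval ((q v : ℂ) ^ (-s)))⁻¹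

/-- The centre `(i + 1)/2`. -/
noncomputable def centre (i : ℕ) : ℝ := ((i : ℝ) + 1) / 2

/-- The weight `w_ρ(u) = (2π)⁻¹ ∫ Re (exp (z - u z^(1/ρ)) / z) dt`, `z = 1 + i t`. -/
noncomputable def weight (ρ u : ℝ) : ℝ :=
  (2 * Real.pi)⁻¹ * ∫ t : ℝ, (Complex.exp ((1 + t * Complex.I) -
    u * (1 + t * Complex.I) ^ ((ρ⁻¹ : ℝ) : ℂ)) / (1 + t * Complex.I)).re

/-- `Π_ρ(X)`: the product over the primes with `q_v ≤ exp ((log X)^ρ')` of the powers of
`B_v(q_v^{-c})`, `c = (i + 1)/2`, with exponents `w_ρ(log q_v / log X)`. -/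
noncomputable def localProduct (B : HeightOneSpectrum (𝓞 K) → ℝ[X]) (i : ℕ) (ρ ρ' X : ℝ) : ℝ :=
  ∏ᶠ (v : HeightOneSpectrum (𝓞 K)) (_ : (q v : ℝ) ≤ Real.exp (Real.log X ^ ρ')),
    ((B v).eval ((q v : ℝ) ^ (-centre i))) ^ weight ρ (Real.log (q v) / Real.log X)

/-- The law `Π_ρ(X) ≍ (log X)^m`. -/
def Law (B : HeightOneSpectrum (𝓞 K) → ℝ[X]) (i : ℕ) (ρ ρ' m : ℝ) : Prop :=
  ∃ A₁ A₂ : ℝ, 0 < A₁ ∧ 0 < A₂ ∧ ∀ᶠ X : ℝ in atTop,
    A₁ * Real.log X ^ m ≤ localProduct B i ρ ρ' X ∧ localProduct B i ρ ρ' X ≤ A₂ * Real.log X ^ m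

/-- The sector `|arg (s - c)| < π / (2ρ)`, `c = (i + 1)/2`. -/
def Sector (i : ℕ) (ρ : ℝ) : Set ℂ :=
  {s | s ≠ centre i ∧ |(s - centre i).arg| < Real.pi / (2 * ρ)}

/-- `G` is holomorphic and has no zeros on the union of `U` and the half plane `Re s > i/2 + 1`, where it
is equal to `L`. -/
def ZeroFreeContinuation (B : HeightOneSpectrum (𝓞 K) → ℝ[X]) (i : ℕ) (U : Set ℂ) (G : ℂ → ℂ) : Prop :=
  (∀ s : ℂ, s ∈ U ∨ (i : ℝ) / 2 + 1 < s.re → DifferentiableAt ℂ G s ∧ G s ≠ 0) ∧
    ∀ s : ℂ, (i : ℝ) / 2 + 1 < s.re → G s = L B s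

/-- `|G(c + x)| ≍ x^m` for `0 < x ≤ 1`, `c = (i + 1)/2`. -/
def HasSize (G : ℂ → ℂ) (i : ℕ) (m : ℝ) : Prop :=
  ∃ A₁ A₂ : ℝ, 0 < A₁ ∧ 0 < A₂ ∧ ∀ x : ℝ, 0 < x → x ≤ 1 →
    A₁ * x ^ m ≤ ‖G (centre i + x)‖ ∧ ‖G (centre i + x)‖ ≤ A₂ * x ^ m

/-- `F` is holomorphic for `Re s > (i + 1)/2` and at `s = (i + 1)/2`, and is equal to `L` for
`Re s > i/2 + 1`. -/
def Continues (B : HeightOneSpectrum (𝓞 K) → ℝ[X]) (i : ℕ) (F : ℂ → ℂ) : Prop :=
  (∀ s : ℂ, centre i < s.re → DifferentiableAt ℂ F s) ∧ AnalyticAt ℂ F (centre i) ∧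
    ∀ s : ℂ, (i : ℝ) / 2 + 1 < s.re → F s = L B s

end definitions

section proofs

open Pool.Agent.TH270.SH Pool.Agent.TH942.ES
open Pool.Agent.TH942.SL (Sect)

variable {K : Type} [Field K] [NumberField K] {B : HeightOneSpectrum (𝓞 K) → ℝ[X]} {i D : ℕ}
  {F : ℂ → ℂ} {ρ ρ' m : ℝ}

theorem centre_half (i : ℕ) : centre i + 1 / 2 = (i : ℝ) / 2 + 1 := by
  unfold centre
  ring

theorem eul (h0 : ∀ v, (B v).coeff 0 = 1) (hD : ∀ v, (B v).natDegree ≤ D) (hp : IsPure B i) :
    Eul B D (centre i) where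
  const := h0
  deg := hD
  root := fun v ρ hρ => by
    have h := hp v ρ hρ
    have e : (1 : ℝ) / 2 - centre i = -((i : ℝ) / 2) := by
      unfold centre
      ring
    rw [e]
    exact h

variable (h : Eul B D (centre i))
include h

theorem factor_pos (v : HeightOneSpectrum (𝓞 K)) : 0 < (B v).eval ((q v : ℝ) ^ (-centre i)) :=
  (h.local v).1

theorem localProduct_eq (ρ ρ' X : ℝ) : localProduct B i ρ ρ' X =
    ∏ v ∈ (h.sys.fin_le (Real.exp (Real.log X ^ ρ'))).toFinset,
      ((B v).eval ((q v : ℝ) ^ (-centre i))) ^ weight ρ (Real.log (q v) / Real.log X) :=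
  finprod_mem_eq_finite_toFinset_prod
    (fun v => ((B v).eval ((q v : ℝ) ^ (-centre i))) ^ weight ρ (Real.log (q v) / Real.log X))
    (h.sys.fin_le (Real.exp (Real.log X ^ ρ')))

theorem localProduct_pos (ρ ρ' X : ℝ) : 0 < localProduct B i ρ ρ' X := by
  rw [localProduct_eq h]
  exact Finset.prod_pos fun v _ => Real.rpow_pos_of_pos (factor_pos h v) _

theorem log_localProduct (ρ ρ' X : ℝ) :
    Real.log (localProduct B i ρ ρ' X) = SrE nmK (alB B D (centre i)) ρ ρ' X := by
  have e4 : SrE nmK (alB B D (centre i)) ρ ρ' X =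
      ∑ v ∈ (h.sys.fin_le (Real.exp (Real.log X ^ ρ'))).toFinset,
        Pool.Agent.TH942.SL.wml ρ⁻¹ (Real.log (nmK v) / Real.log X) *
          cv nmK (alB B D (centre i)) v :=
    finsum_mem_eq_finite_toFinset_sum
      (fun v => Pool.Agent.TH942.SL.wml ρ⁻¹ (Real.log (nmK v) / Real.log X) *
        cv nmK (alB B D (centre i)) v) (h.sys.fin_le (Real.exp (Real.log X ^ ρ')))
  rw [localProduct_eq h, e4,
    Real.log_prod fun v _ => (Real.rpow_pos_of_pos (factor_pos h v) _).ne']
  refine Finset.sum_congr rfl fun v _ => ?_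
  rw [Real.log_rpow (factor_pos h v), h.cv_eq]
  rfl

theorem law_iff : Law B i ρ ρ' m ↔ Gr nmK (alB B D (centre i)) ρ ρ' m := by
  constructor
  · rintro ⟨A₁, A₂, h1, h2, h3⟩
    refine ⟨|Real.log A₁| + |Real.log A₂|, by positivity, ?_⟩
    filter_upwards [h3, eventually_gt_atTop 1] with X h4 h5
    have hl : 0 < Real.log X := Real.log_pos h5
    have hlp : 0 < Real.log X ^ m := Real.rpow_pos_of_pos hl _
    have h6 := Real.log_le_log (mul_pos h1 hlp) h4.1
    have h7 := Real.log_le_log (localProduct_pos h ρ ρ' X) h4.2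
    rw [Real.log_mul h1.ne' hlp.ne', Real.log_rpow hl, log_localProduct h] at h6
    rw [Real.log_mul h2.ne' hlp.ne', Real.log_rpow hl, log_localProduct h] at h7
    have h8 := neg_abs_le (Real.log A₁)
    have h9 := le_abs_self (Real.log A₂)
    have h10 := abs_nonneg (Real.log A₁)
    have h11 := abs_nonneg (Real.log A₂)
    rw [abs_le]
    constructor <;> linarith
  · rintro ⟨C, hC, h3⟩
    refine ⟨Real.exp (-C), Real.exp C, Real.exp_pos _, Real.exp_pos _, ?_⟩
    filter_upwards [h3, eventually_gt_atTop 1] with X h4 h5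
    have hl : 0 < Real.log X := Real.log_pos h5
    have e1 : Real.log X ^ m = Real.exp (m * Real.log (Real.log X)) := by
      rw [Real.rpow_def_of_pos hl, mul_comm]
    rw [← log_localProduct h, abs_le] at h4
    rw [e1, ← Real.exp_add, ← Real.exp_add]
    constructor
    · rw [← Real.le_log_iff_exp_le (localProduct_pos h ρ ρ' X)]
      linarith [h4.1]
    · rw [← Real.log_le_iff_le_exp (localProduct_pos h ρ ρ' X)]
      linarith [h4.2]

omit h in
theorem sector_eq (i : ℕ) (ρ : ℝ) : Sector i ρ = {s : ℂ | s - centre i ∈ Sect ρ} := by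
  ext s
  simp only [Sector, Sect, Set.mem_ofPred_eq, ne_eq, sub_eq_zero]

/-- translation of the continuation -/
theorem shift_cont {U : Set ℂ} {G : ℂ → ℂ} (hG : ZF nmK (alB B D (centre i)) U G) :
    ZeroFreeContinuation B i {s | s - centre i ∈ U} (fun s => G (s - centre i)) := by
  have hre : ∀ s : ℂ, (s - centre i).re = s.re - centre i := fun s => by
    rw [Complex.sub_re, Complex.ofReal_re]
  constructor
  · intro s hs
    obtain ⟨e1, e2⟩ := hG.1 (s - centre i) (hs.imp id fun h' => by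
      rw [hre]
      have := centre_half i
      linarith)
    exact ⟨DifferentiableAt.comp (f := fun s : ℂ => s - centre i) s e1 (by fun_prop), e2⟩
  · intro s hs
    have h1 := hG.2 (s - centre i) (by
      rw [hre]
      have := centre_half i
      linarith)
    simp only
    rw [h1, h.LE_eq, add_sub_cancel]
    rfl

omit h in
theorem shift_size {G : ℂ → ℂ} (hG : Size G m) : HasSize (fun s => G (s - centre i)) i m := by
  obtain ⟨A₁, A₂, h1, h2, h3⟩ := hG
  refine ⟨A₁, A₂, h1, h2, fun x hx hx1 => ?_⟩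
  simp only [add_sub_cancel_left]
  exact h3 x hx hx1

theorem con (hF : Continues B i F) :
    Con nmK (alB B D (centre i)) (fun s => F (centre i + s)) :=
  h.con hF.1 fun s hs => hF.2.2 s (by rwa [centre_half] at hs)

end proofs

/-- **Order of vanishing and zero-free sectors from the numbers of points.** -/
theorem result (K : Type) [Field K] [NumberField K] {n : ℕ} (X : Set (MvPolynomial (Fin n) (𝓞 K)))
    (d i N : ℕ) (B : HeightOneSpectrum (𝓞 K) → ℝ[X]) (hB : IsEulerSystem X d i N B)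
    (hpure : IsPure B i) :
    -- a single law implies the continuation to the sector and the order of magnitude at the centre
    (∀ ρ ρ' m : ℝ, 1 < ρ → ρ < ρ' → Law B i ρ ρ' m →
        ∃ G : ℂ → ℂ, ZeroFreeContinuation B i (Sector i ρ) G ∧ HasSize G i m) ∧
    -- all laws together imply the continuation to the half plane to the right of the centre
    (∀ m : ℝ, (∀ ρ ρ' : ℝ, 1 < ρ → ρ < ρ' → Law B i ρ ρ' m) →
        ∃ G : ℂ → ℂ, ZeroFreeContinuation B i {s | centre i < s.re} G ∧ HasSize G i m) ∧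
    -- the equivalences, if the `L`-function is known to be holomorphic for `Re s > c` and at `c`
    ∀ F : ℂ → ℂ, Continues B i F → (∃ m : ℕ, analyticOrderAt F (centre i) = m) ∧ ∀ r : ℕ,
      (∀ ρ ρ' : ℝ, 1 < ρ → ρ < ρ' →
        List.TFAE [analyticOrderAt F (centre i) = r ∧ ∀ s ∈ Sector i ρ, F s ≠ 0,
          Law B i ρ ρ' r,
          Tendsto (fun X : ℝ => Real.log (localProduct B i ρ ρ' X) / Real.log (Real.log X))
            atTop (𝓝 (r : ℝ))]) ∧
      ((∀ ρ ρ' : ℝ, 1 < ρ → ρ < ρ' → Law B i ρ ρ' r) ↔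
        analyticOrderAt F (centre i) = r ∧ ∀ s : ℂ, centre i < s.re → F s ≠ 0) := by
  obtain ⟨N', ⟨β₀, E⟩, -⟩ := hB.ldata
  have h : Pool.Agent.TH270.SH.Eul B N' (centre i) := eul hB.const (fun v => E.deg v) hpure
  refine ⟨fun ρ ρ' m hρ hρ' hl => ?_, fun m hl => ?_, fun F hF => ?_⟩
  · obtain ⟨G, h1, h2⟩ := Pool.Agent.TH270.SH.Gr.cont h.sys hρ hρ' ((law_iff h).1 hl)
    refine ⟨fun s => G (s - centre i), ?_, shift_size h2⟩
    rw [sector_eq]
    exact shift_cont h h1
  · obtain ⟨G, h1, h2⟩ := Pool.Agent.TH270.SH.gr_all h.sys (m := m) fun ρ ρ' hρ hρ' =>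
      (law_iff h).1 (hl ρ ρ' hρ hρ')
    refine ⟨fun s => G (s - centre i), ?_, shift_size h2⟩
    have h3 : {s : ℂ | centre i < s.re} = {s : ℂ | s - centre i ∈ {z : ℂ | 0 < z.re}} := by
      ext s
      simp only [Set.mem_ofPred_eq, Complex.sub_re, Complex.ofReal_re, sub_pos]
    rw [h3]
    exact shift_cont h h1
  · obtain ⟨ha, ho⟩ := Pool.Agent.TH270.SH.order_shift hF.2.1
    have hc := con h hF
    refine ⟨?_, fun r => ⟨fun ρ ρ' hρ hρ' => ?_, ?_⟩⟩
    · obtain ⟨m, hm⟩ := Pool.Agent.TH270.SH.exists_ord h.sys hc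
      exact ⟨m, by rw [← ho, hm]⟩
    · have key := Pool.Agent.TH270.SH.law_tfae h.sys hc ha hρ hρ' r
      have e1 : (analyticOrderAt F (centre i) = r ∧ ∀ s ∈ Sector i ρ, F s ≠ 0) ↔
          (analyticOrderAt (fun s => F (centre i + s)) 0 = r ∧
            ∀ s ∈ Pool.Agent.TH942.SL.Sect ρ, F (centre i + s) ≠ 0) := by
        rw [ho, sector_eq]
        refine and_congr_right fun _ => ⟨fun h4 s hs => h4 _ ?_, fun h4 s hs => ?_⟩
        · rw [Set.mem_ofPred_eq, add_sub_cancel_left]
          exact hs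
        · have := h4 (s - centre i) hs
          rwa [add_sub_cancel] at this
      tfae_have 1 ↔ 2 := by
        rw [e1, law_iff h]
        exact key.out 0 1
      tfae_have 2 ↔ 3 := by
        rw [law_iff h]
        simp only [log_localProduct h]
        exact key.out 1 2
      tfae_finish
    · have key := Pool.Agent.TH270.SH.law_all h.sys hc ha r
      rw [ho] at key
      simp only [law_iff h]
      rw [key]
      refine and_congr_right fun _ => ⟨fun h4 s hs => ?_, fun h4 s hs => h4 _ ?_⟩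
      · have := h4 (s - centre i) (by
          rw [Complex.sub_re, Complex.ofReal_re]
          linarith)
        rwa [add_sub_cancel] at this
      · rw [Complex.add_re, Complex.ofReal_re]
        linarith

end Pool.Agent.Results.MP_6dc9d1_nt.CentralSectorLaw
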