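import Pool.Agent.TH936.CW.Rnk
import Pool.Agent.TH936.CW.Odk
import Pool.Agent.W192.HL.Ms
import Pool.Agent.W765.HK.Pair
import Pool.Agent.W216.CY.Div
import Pool.Agent.W287.HK.Basic
import Pool.Agent.W571.HK.Cls
import Pool.Agent.W53.HK.Fp
import Pool.Agent.W366.HK.Fpr
import Pool.Agent.W585.HK.LAT
import Pool.Agent.W692.HK.Ker
import Pool.Agent.W584.HK.CNT
import Pool.Agent.W513.HK.Divr
import Pool.Agent.W822.HK.MU
import Pool.Agent.W240.HK.Count
import Pool.Agent.W883.HK.Tail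
import Pool.Agent.W930.HK.Mob
import Pool.Agent.W648.HK.Mainp0
import Pool.Agent.W240.HK.Dualp0
import Pool.Agent.W768.HK.Finn0
import Pool.Agent.W856.HK.Dec
import Pool.Agent.W636.HK.Gauss
import Pool.Agent.W348.HK.Pois
import Pool.Agent.W29.HK.Prod
import Pool.Agent.W283.HK.PW

/-!
# Orders of vanishing at the centre over the ray class fields of `K`, infinity type `(2m - 1, 0)`

`R` is the ring of integers of an imaginary quadratic field `K` (any class number), `m ≥ 2` and `ψ` a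
primitive Hecke character of `K` of conductor `f` and infinity type `(2m - 1, 0)`; the centre of the
functional equation of the `L(ψ χ, s)` is `s = m`.  For an ideal `c` prime to `f` let `K(c)` be the
ray class field of conductor `c`; the characters of `Gal(K(c) / K)` are the primitive ray class
characters `χ` of conductor dividing `c`.  If the group `(R / c)ˣ` is cyclic (for instance for prime
ideals `c` and for powers of prime ideals of odd prime norm), then

  `∑ ord_{s = m} L(ψ χ, s) ≤ C N(c) ^ (2/3 + ε)`,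

the sum over all characters `χ` of `Gal(K(c) / K)`.

If `E` is an elliptic curve over `K` with complex multiplication by `R` and Hecke character `φ`, then,
up to finitely many Euler factors, `L(H^(2m-1)(E^(2m-1) / K(c)), s)` is a product of functions
`L(φ^a conj(φ)^b χ, s)`, `a + b = 2m - 1`, with multiplicities depending only on `m`; the ones with
`a = 2m - 1` are the `L(ψ χ, s)` for the primitive `ψ` underlying `φ^(2m-1)`, the others belong to
smaller `m` (for `m = 1` see `MP_cd906c_nt.RayClassAnalyticRank`) or are complex conjugates.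

The averages over the Galois conjugates of `χ` come from the starting library (project HK) and from
`Pool.Agent.TH936.HK`; that the vanishing of `L(ψ χ, m)` is invariant under the Galois group is
`Pool.Agent.TH936.CW.equiK`.
-/

set_option autoImplicit false

open Complex

namespace Pool.Agent.Results.MP_6dc9d1_nt.RayClassCentralOrders

/-- The norm `N(I)` of an ideal (`0` for the zero ideal, whose residue ring is infinite). -/
noncomputable def norm {R : Subring ℂ} (I : Ideal R) : ℝ := (Nat.card (R ⧸ I) : ℝ)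

/-- `ψ`, a function on the ideals of `R`, is a primitive Hecke character of conductor `f` and infinity
type `(n, 0)`: it is multiplicative, vanishes exactly at the zero ideal and the ideals not prime to
`f`, satisfies `ψ((α)) = α ^ n` for `α ≡ 1 mod f`, and this fails for every strictly larger ideal `f'`
in place of `f`.  For `n = 0` these are the primitive ray class characters of conductor `f`. -/
structure IsHecke {R : Subring ℂ} (n : ℕ) (f : Ideal R) (ψ : Ideal R → ℂ) : Prop where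
  ne_bot : f ≠ ⊥
  mul : ∀ I J : Ideal R, ψ (I * J) = ψ I * ψ J
  eq_zero : ∀ I : Ideal R, ψ I = 0 ↔ (I = ⊥ ∨ ¬ IsCoprime I f)
  principal : ∀ α : R, α ≠ 0 → α - 1 ∈ f → ψ (Ideal.span {α}) = (α : ℂ) ^ n
  primitive : ∀ f' : Ideal R, f < f' → ∃ α : R, α ≠ 0 ∧ α - 1 ∈ f' ∧ IsCoprime (Ideal.span {α}) f ∧
    ψ (Ideal.span {α}) ≠ (α : ℂ) ^ n

/-- The characters of the ray class group modulo `c`, each given by its primitive ray class character:
the primitive ray class characters of conductor dividing `c`. -/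
def chars {R : Subring ℂ} (c : Ideal R) : Set (Ideal R → ℂ) :=
  {χ | ∃ c' : Ideal R, c' ∣ c ∧ IsHecke 0 c' χ}

theorem isHecke_iff {R : Subring ℂ} (n : ℕ) (f : Ideal R) (ψ : Ideal R → ℂ) :
    IsHecke n f ψ ↔ Pool.Agent.W192.HK.HC n f ψ :=
  ⟨fun h => ⟨h.ne_bot, h.mul, h.eq_zero, h.principal, h.primitive⟩,
    fun h => ⟨h.ne, h.mul, h.zero, h.princ, h.prim⟩⟩

theorem chars_eq {R : Subring ℂ} (c : Ideal R) : chars c = Pool.Agent.TH936.CM.Ach c := by
  ext χ
  exact exists_congr fun c' => and_congr_right fun _ => isHecke_iff _ _ _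

/-- **Main theorem.** Let `R = ℤ + ℤ ω` be a subring of `ℂ` that is a lattice and a Dedekind domain,
`m ≥ 2` and `ψ` a primitive Hecke character of conductor `f` and infinity type `(2m - 1, 0)` on the
ideals of `R`.  There are functions `L χ` such that for every primitive ray class character `χ` of
conductor `c` prime to `f` the function `L χ` is entire, is `∑ ψ(I) χ(I) N(I)^(-s)` for
`Re s > m + 1/2` and has finite order at `s = m`, and for every `ε > 0` there is `C` such that for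
every ideal `c ≠ 0` prime to `f` for which `(R/c)ˣ` is cyclic the set `chars c` is finite and the sum
over `χ ∈ chars c` of the orders of `L χ` at `s = m` is at most `C N(c)^(2/3 + ε)`. -/
theorem result (R : Subring ℂ) (ω : ℂ) (hω : 0 < ω.im)
    (hR : ∀ z : ℂ, z ∈ R ↔ ∃ x y : ℤ, z = x + y * ω) (hded : IsDedekindDomain R)
    (m : ℕ) (hm : 2 ≤ m) (f : Ideal R) (ψ : Ideal R → ℂ) (hψ : IsHecke (2 * m - 1) f ψ) :
    ∃ L : (Ideal R → ℂ) → ℂ → ℂ,
      (∀ (c : Ideal R) (χ : Ideal R → ℂ), IsCoprime f c → IsHecke 0 c χ →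
        Differentiable ℂ (L χ) ∧
        (∀ s : ℂ, (m : ℝ) + 1 / 2 < s.re →
          HasSum (fun I : Ideal R => ψ I * χ I * (norm I : ℂ) ^ (-s)) (L χ s)) ∧
        analyticOrderAt (L χ) m ≠ ⊤) ∧
      ∀ ε : ℝ, 0 < ε → ∃ C : ℝ, 0 < C ∧ ∀ c : Ideal R, IsCoprime f c → c ≠ ⊥ →
        IsCyclic (R ⧸ c)ˣ → (chars c).Finite ∧
          ∑ᶠ χ ∈ chars c, (analyticOrderNatAt (L χ) m : ℝ) ≤ C * (norm c) ^ (2 / 3 + ε) := by
  classical
  have hbasic := Pool.Agent.W287.HK.h_basic
  have hcls := Pool.Agent.W571.HK.h_cls hbasic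
  have hfp := Pool.Agent.W53.HK.h_fp hbasic hcls
  have hfpr := Pool.Agent.W366.HK.h_fpr hbasic hcls
  have hlat := Pool.Agent.W585.HK.h_lat hbasic
  have hker := Pool.Agent.W692.HK.h_ker hbasic hcls hfpr
  have hcnt := Pool.Agent.W584.HK.h_cnt hbasic hcls hfpr hlat hker
  have hdivr := Pool.Agent.W513.HK.h_divr hbasic
  have hmu := Pool.Agent.W822.HK.h_mu hbasic
  have hcount := Pool.Agent.W240.HK.h_count hbasic hcnt hdivr
  have htail := Pool.Agent.W883.HK.h_tail hbasic hcnt hcount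
  have hmob := Pool.Agent.W930.HK.h_mob
  have hdiv := Pool.Agent.W216.CY.t_div
  have hmain := Pool.Agent.W648.HK.Mainp0.n_mainp hbasic hcnt hdivr htail hmob hdiv
  have hdual := Pool.Agent.W240.HK.n_dualp hdiv hbasic hcnt hker hmob hfpr
  have hfinn := Pool.Agent.TH936.HK.h_finn
    (Pool.Agent.W768.HK.Finn0.n_finn hdiv hbasic hcnt hmu hmob hmain hdual hfpr)
  have hpair := Pool.Agent.W765.HK.l_pair hbasic hcls hfpr hker
  have hms := Pool.Agent.W192.HL.ms hbasic hcnt hpair hfpr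
  have hdec := Pool.Agent.W856.HK.h_dec hbasic
  have hgauss := Pool.Agent.W636.HK.h_gauss hbasic hfp
  have hpois := Pool.Agent.W348.HK.h_pois hbasic
  have htheta := Pool.Agent.TH936.HK.h_theta hbasic hfp hdec hgauss hpois hcnt
  have hafe := Pool.Agent.TH936.HK.h_afe hbasic hfp hcnt hgauss htheta
  have hprod := Pool.Agent.W29.HK.h_prod hbasic hfp
  have hpw := Pool.Agent.W283.HK.PW.h_pw hbasic
  have hQ : Pool.Agent.W192.HK.QR R ω := ⟨hω, hR, hded⟩
  obtain ⟨e, rfl⟩ : ∃ e : ℕ, m = e + 1 := ⟨m - 1, by omega⟩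
  have hψ' : Pool.Agent.W192.HK.HC (2 * (e + 1) - 1) f ψ := (isHecke_iff _ _ _).1 hψ
  have hψ2 : Pool.Agent.W192.HK.HC (2 * e + 1) f ψ := hψ'
  obtain ⟨L, h1, h2, -, -, h5⟩ := Pool.Agent.TH936.HK.asmK hdiv hbasic hcls hcnt hmu hmob hmain
    hdual hfpr hfp hafe hfinn hms hgauss hprod hpw hQ (e + 1) (by omega) f ψ hψ'
  obtain ⟨M, hM, hequi⟩ := Pool.Agent.TH936.CW.equiK hbasic hfp hcnt hdec hafe hcls hprod hpw hQ
    hψ2
  obtain ⟨K, hK, hord⟩ := Pool.Agent.TH936.CW.ordK_le hbasic hfp hcnt hgauss htheta hcls hQ e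
  have hIsL : ∀ (c : Ideal R) (χ : Ideal R → ℂ), IsCoprime f c →
      Pool.Agent.W192.HK.HC 0 c χ → Pool.Agent.TH936.CW.IsLK e ψ χ (L c χ) := by
    intro c χ hc hχ
    obtain ⟨g1, g2⟩ := h1 c χ hc hχ
    exact ⟨g1, fun z hz => g2 z hz⟩
  have hmain1 : ∀ ε : ℝ, 0 < ε → ∃ N0 : ℝ, ∀ (c : Ideal R) (χ : Ideal R → ℂ),
      IsCoprime f c → Pool.Agent.W192.HK.HC 0 c χ → N0 ≤ Pool.Agent.W192.HK.nm c →
        ∀ d : ℕ, Pool.Agent.W192.HK.Od χ d →
          (Pool.Agent.W192.HK.nm c) ^ (2 / 3 + ε) ≤ d → L c χ ((e + 1 : ℕ) : ℂ) ≠ 0 := by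
    intro ε hε
    obtain ⟨N0, hN0⟩ := h5 M hM ε hε
    refine ⟨N0, fun c χ hc hχ hN d hd hdN h0 => ?_⟩
    obtain ⟨a, ha0, ha1, ha2, ha3⟩ := hN0 c χ hc hχ hN d hd hdN
    have hχa := h2 c χ hχ d hd a ha1
    have h6 := (hequi c χ hc hχ d hd a ha1 ha2 _ _ (hIsL c χ hc hχ)
      (hIsL c _ hc hχa)).1 h0
    rw [h6, norm_zero] at ha3
    have h8 : (0 : ℝ) < Pool.Agent.W192.HK.nm c :=
      lt_of_lt_of_le one_pos ((hbasic R ω hQ).2.2.1 c hχ.ne)
    have h9 := Real.rpow_pos_of_pos h8 (-ε)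
    linarith
  -- a function of `χ` only
  set Lx : (Ideal R → ℂ) → ℂ → ℂ := fun χ =>
    if h : ∃ c : Ideal R, IsCoprime f c ∧ Pool.Agent.W192.HK.HC 0 c χ
      then L (Classical.choose h) χ else fun _ => 0 with hLx
  have hLx' : ∀ (c : Ideal R) (χ : Ideal R → ℂ), IsCoprime f c →
      Pool.Agent.W192.HK.HC 0 c χ → Lx χ = L c χ := by
    intro c χ hc hχ
    have h : ∃ c : Ideal R, IsCoprime f c ∧ Pool.Agent.W192.HK.HC 0 c χ := ⟨c, hc, hχ⟩
    have e1 : Lx χ = L (Classical.choose h) χ := by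
      rw [hLx]
      exact dif_pos h
    have e2 := Classical.choose_spec h
    rw [e1]
    have g1 := hIsL _ χ e2.1 e2.2
    have g2 := hIsL c χ hc hχ
    exact Pool.Agent.TH936.CM.entire_eq g1.diff g2.diff _ fun z hz =>
      (g1.sum z hz).unique (g2.sum z hz)
  have hordc : ∀ (c : Ideal R) (χ : Ideal R → ℂ), IsCoprime f c →
      Pool.Agent.W192.HK.HC 0 c χ → analyticOrderAt (Lx χ) ((e + 1 : ℕ) : ℂ) ≠ ⊤ ∧
        (analyticOrderNatAt (Lx χ) ((e + 1 : ℕ) : ℂ) : ℝ) ≤
          K * (1 + Real.log (Pool.Agent.W192.HK.nm (f * c))) := by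
    intro c χ hc hχ
    rw [hLx' c χ hc hχ]
    have g2 := hIsL c χ hc hχ
    exact hord (f * c) (fun I => ψ I * χ I) (hprod R ω hQ _ f c ψ χ hψ2 hχ hc) _ g2.diff g2.sum
  obtain ⟨b1, b2, b3, b4, -⟩ := hbasic R ω hQ
  have hf1 : 1 ≤ Pool.Agent.W192.HK.nm f := b3 f hψ'.ne
  have hlf : 0 ≤ Real.log (Pool.Agent.W192.HK.nm f) := Real.log_nonneg hf1
  refine ⟨Lx, fun c χ hc hχ => ?_, fun ε hε => ?_⟩
  · have hχ' := (isHecke_iff _ _ _).1 hχ
    have g2 := hIsL c χ hc hχ'
    refine ⟨?_, ?_, (hordc c χ hc hχ').1⟩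
    · rw [hLx' c χ hc hχ']
      exact g2.diff
    · rw [hLx' c χ hc hχ']
      exact g2.sum
  · obtain ⟨C, hC, hfin⟩ := Pool.Agent.TH936.CW.rank_boundK hdiv hbasic hcls hcnt hdivr hQ (f := f)
      ((e + 1 : ℕ) : ℂ) Lx
      (fun ε hε => by
        obtain ⟨N0, hN0⟩ := hmain1 ε hε
        refine ⟨N0, fun c χ hc hχ hN d hd hdN => ?_⟩
        rw [hLx' c χ hc hχ]
        exact hN0 c χ hc hχ hN d hd hdN)
      (fun c χ hc hχ => by
        rw [hLx' c χ hc hχ]
        exact (hIsL c χ hc hχ).diff)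
      (K := K * (1 + Real.log (Pool.Agent.W192.HK.nm f))) (by positivity)
      (fun c χ hc hχ => by
        refine (hordc c χ hc hχ).2.trans ?_
        have hc1 : 1 ≤ Pool.Agent.W192.HK.nm c := b3 c hχ.ne
        have hlc : 0 ≤ Real.log (Pool.Agent.W192.HK.nm c) := Real.log_nonneg hc1
        rw [b4, Real.log_mul (by linarith) (by linarith), mul_assoc]
        refine mul_le_mul_of_nonneg_left ?_ hK.le
        nlinarith [mul_nonneg hlf hlc]) ε hε
    refine ⟨C, hC, fun c hc hcb hcyc => ?_⟩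
    rw [chars_eq]
    exact hfin c hc hcb hcyc

end Pool.Agent.Results.MP_6dc9d1_nt.RayClassCentralOrders
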